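import Pool.Agent.Y120.K.Defs2
import Pool.Agent.Y949.J.Nfm
import Pool.Agent.Y120.H.GS1
import Pool.Agent.Y120.G.Word
import Pool.Agent.Y113.P.Fin

/-!
# The base family is a G-system, uniformly in the shift
-/

set_option autoImplicit false

open PowerSeries Pool.Agent.Y113 Pool.Agent.Y120.GH Pool.Agent.Y120.J Pool.Agent.Y120.K

namespace Pool.Agent.Y606.K

/-! ### the shift as a homomorphism -/

/-- the shift as a homomorphism -/
noncomputable def sh' (g : ℕ) : ℚ⟦X⟧ →+* ℚ⟦X⟧ :=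
  ((substAlgHom (Pool.Agent.Y120.GF.sh_sub g) : ℚ⟦X⟧ →ₐ[ℚ] ℚ⟦X⟧) : ℚ⟦X⟧ →+* ℚ⟦X⟧)

theorem sh'_apply (g : ℕ) (f : ℚ⟦X⟧) : sh' g f = sf g f := by
  unfold sh' sf
  rw [← coe_substAlgHom (Pool.Agent.Y120.GF.sh_sub g)]
  rfl

theorem sh'_X (g : ℕ) : sh' g X = sh g := by
  rw [sh'_apply]
  exact subst_X (Pool.Agent.Y120.GF.sh_sub g)

theorem theta_sf (g : ℕ) (f : ℚ⟦X⟧) :
    (1 - (g : ℚ⟦X⟧) * X) * (X * d⁄dX ℚ (sf g f)) = sf g (X * d⁄dX ℚ f) := by
  have h1 := sf_der g f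
  rw [ps_Pg] at h1
  have h2 := Pool.Agent.Y120.GF.sh_eq g
  have h3 : sf g X = sh g := by
    rw [← sh'_apply, sh'_X]
  rw [sf_mul, h3, ← h1]
  linear_combination (-(1 - (g : ℚ⟦X⟧) * X) * d⁄dX ℚ (sf g f)) * h2

/-! ### the differential equations for both signs -/

/-- the sign as a power series -/
noncomputable abbrev ep (s : Bool) : ℚ⟦X⟧ := ((si s : ℤ) : ℚ⟦X⟧)

theorem ps_X' : ps (Polynomial.X : Polynomial ℤ) = (X : ℚ⟦X⟧) := by
  unfold ps
  rw [Polynomial.map_X, Polynomial.coe_X]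

open Pool.Agent.Y949.J in
theorem hS_ode (s : Bool) (hode : T_ODE) :
    X * d⁄dX ℚ (hS s 0) = hS s 2 ∧
    X * d⁄dX ℚ (hS s 1) = hS s 3 - hS s 0 ∧
    (1 - 1728 * ep s * X) ^ 2 * (X * d⁄dX ℚ (hS s 2)) =
      X * (82944 * X - 372 * ep s) * hS s 0 ∧
    (1 - 1728 * ep s * X) ^ 2 * (X * d⁄dX ℚ (hS s 3) + hS s 2) =
      X * (82944 * X - 372 * ep s) * hS s 1 ∧
    hS s 0 * hS s 3 - hS s 2 * hS s 1 = 1 := by
  obtain ⟨h1, h2, h3⟩ := hode
  have hT : ps T1 = (1 - 1728 * X) ^ 2 := by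
    have e : T1 = (1 - Polynomial.C 1728 * Polynomial.X) ^ 2 := by
      unfold T1
      norm_num [Polynomial.C_ofNat]
    rw [e, ← Pool.Agent.Y119.HZ.psR_apply]
    simp only [map_pow, map_sub, map_mul, map_one, Pool.Agent.Y119.HZ.psR_apply, ps_X', ps_C]
    norm_num
  have hQ : ps Q1 = X * (82944 * X - 372) := by
    have e : Q1 = Polynomial.X * (Polynomial.C 82944 * Polynomial.X - Polynomial.C 372) := by
      unfold Q1
      norm_num [Polynomial.C_ofNat]
    rw [e, ← Pool.Agent.Y119.HZ.psR_apply]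
    simp only [map_sub, map_mul, Pool.Agent.Y119.HZ.psR_apply, ps_X', ps_C]
    norm_num
  rw [hT, hQ] at h1 h2
  cases s
  · -- the sign minus
    have e0 : hS false 0 = rs Pool.Agent.Y120.J.FF := rfl
    have e1 : hS false 1 = rs GG := rfl
    have e2 : hS false 2 = rs F1 := rfl
    have e3 : hS false 3 = rs G1 := rfl
    have ee : ep false = -1 := by
      simp [ep, si]
    rw [e0, e1, e2, e3, ee, theta_rs, theta_rs, theta_rs, theta_rs]
    have c1 : rs (1728 : ℚ⟦X⟧) = 1728 := map_ofNat _ _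
    have c2 : rs (82944 : ℚ⟦X⟧) = 82944 := map_ofNat _ _
    have c3 : rs (372 : ℚ⟦X⟧) = 372 := map_ofNat _ _
    refine ⟨rfl, ?_, ?_, ?_, ?_⟩
    · have : rs G1 = rs (X * d⁄dX ℚ GG) + rs Pool.Agent.Y120.J.FF := by
        rw [← map_add]
        rfl
      rw [this]
      ring
    · have := congrArg rs h1
      simp only [map_mul, map_pow, map_sub, map_one, rs_X, c1, c2, c3] at this
      simp only [map_mul, rs_X]
      linear_combination this
    · have := congrArg rs h2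
      simp only [map_mul, map_pow, map_sub, map_add, map_one, rs_X, c1, c2, c3] at this
      simp only [map_mul, rs_X]
      linear_combination this
    · have := congrArg rs h3
      simp only [map_mul, map_sub, map_one] at this
      linear_combination this
  · have e0 : hS true 0 = Pool.Agent.Y120.J.FF := rfl
    have e1 : hS true 1 = GG := rfl
    have e2 : hS true 2 = F1 := rfl
    have e3 : hS true 3 = G1 := rfl
    have ee : ep true = 1 := by
      simp [ep, si]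
    rw [e0, e1, e2, e3, ee]
    refine ⟨rfl, ?_, ?_, ?_, ?_⟩
    · have : G1 = X * d⁄dX ℚ GG + Pool.Agent.Y120.J.FF := rfl
      rw [this]
      ring
    · linear_combination h1
    · linear_combination h2
    · linear_combination h3

/-! ### the differential equations for the shifted functions -/

/-- `G - F log (1 - g x)` -/
noncomputable def Gh (s : Bool) (g : ℕ) : ℚ⟦X⟧ := sf g (hS s 1) - sf g (hS s 0) * lg g

/-- `θG + F - θF log (1 - g x)` -/
noncomputable def Gh1 (s : Bool) (g : ℕ) : ℚ⟦X⟧ := sf g (hS s 3) - sf g (hS s 2) * lg g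

/-- `1 - (g + 1728 ε) x` -/
noncomputable abbrev RR (s : Bool) (g : ℕ) : ℚ⟦X⟧ := 1 - ((g : ℚ⟦X⟧) + 1728 * ep s) * X

/-- `x (82944 x - 372 ε (1 - g x))` -/
noncomputable abbrev QQ (s : Bool) (g : ℕ) : ℚ⟦X⟧ :=
  X * (82944 * X - 372 * ep s * (1 - (g : ℚ⟦X⟧) * X))

theorem sh_ode (s : Bool) (g : ℕ) (hode : T_ODE) :
    (1 - (g : ℚ⟦X⟧) * X) * RR s g ^ 2 * (X * d⁄dX ℚ (sf g (hS s 0))) =
      RR s g ^ 2 * sf g (hS s 2) ∧
    (1 - (g : ℚ⟦X⟧) * X) * RR s g ^ 2 * (X * d⁄dX ℚ (Gh s g) + sf g (hS s 0)) =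
      RR s g ^ 2 * Gh1 s g ∧
    (1 - (g : ℚ⟦X⟧) * X) * RR s g ^ 2 * (X * d⁄dX ℚ (sf g (hS s 2))) =
      QQ s g * sf g (hS s 0) ∧
    (1 - (g : ℚ⟦X⟧) * X) * RR s g ^ 2 * (X * d⁄dX ℚ (Gh1 s g) + sf g (hS s 2)) =
      QQ s g * Gh s g ∧
    sf g (hS s 0) * Gh1 s g - sf g (hS s 2) * Gh s g = 1 := by
  obtain ⟨h1, h2, h3, h4, h5⟩ := hS_ode s hode
  have hsh := Pool.Agent.Y120.GF.sh_eq g
  have hP : (1 - (g : ℚ⟦X⟧) * X) ^ 2 * sh' g ((1 - 1728 * ep s * X) ^ 2) = RR s g ^ 2 := by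
    simp only [map_pow, map_sub, map_mul, map_one, map_ofNat, map_intCast, sh'_X]
    have : (1 - (g : ℚ⟦X⟧) * X) * (1 - 1728 * ep s * sh g) = RR s g := by
      linear_combination (-1728 * ep s) * hsh
    rw [← this]
    ring
  have hQ : (1 - (g : ℚ⟦X⟧) * X) ^ 2 * sh' g (X * (82944 * X - 372 * ep s)) = QQ s g := by
    simp only [map_sub, map_mul, map_ofNat, map_intCast, sh'_X]
    linear_combination ((1 - (g : ℚ⟦X⟧) * X) * 82944 * sh g + 82944 * X -
      372 * ep s * (1 - (g : ℚ⟦X⟧) * X)) * hsh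
  have a1 := theta_sf g (hS s 0)
  have a2 := theta_sf g (hS s 1)
  have a3 := theta_sf g (hS s 2)
  have a4 := theta_sf g (hS s 3)
  have a5 : (1 - (g : ℚ⟦X⟧) * X) * (X * d⁄dX ℚ (lg g)) = -(g : ℚ⟦X⟧) * X := by
    linear_combination X * Pool.Agent.Y120.GF.lg_der g
  rw [h1] at a1
  have e2 : sf g (hS s 3 - hS s 0) = sf g (hS s 3) - sf g (hS s 0) := by
    simp only [← sh'_apply, map_sub]
  rw [h2, e2] at a2
  have b3 := congrArg (sh' g) h3
  rw [map_mul, map_mul _ (X * (82944 * X - 372 * ep s)), sh'_apply g (X * d⁄dX ℚ (hS s 2)), ← a3,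
    sh'_apply g (hS s 0)] at b3
  have b4 := congrArg (sh' g) h4
  rw [map_mul, map_mul _ (X * (82944 * X - 372 * ep s)), map_add,
    sh'_apply g (X * d⁄dX ℚ (hS s 3)), ← a4, sh'_apply g (hS s 2), sh'_apply g (hS s 1)] at b4
  have b5 := congrArg (sh' g) h5
  rw [map_sub, map_mul, map_mul, map_one, sh'_apply, sh'_apply, sh'_apply, sh'_apply] at b5
  have c3 : (1 - (g : ℚ⟦X⟧) * X) * RR s g ^ 2 * (X * d⁄dX ℚ (sf g (hS s 2))) =
      QQ s g * sf g (hS s 0) := by
    rw [← hP, ← hQ]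
    linear_combination (1 - (g : ℚ⟦X⟧) * X) ^ 2 * b3
  have c4 : RR s g ^ 2 * ((1 - (g : ℚ⟦X⟧) * X) * (X * d⁄dX ℚ (sf g (hS s 3))) +
      sf g (hS s 2)) = QQ s g * sf g (hS s 1) := by
    rw [← hP, ← hQ]
    linear_combination (1 - (g : ℚ⟦X⟧) * X) ^ 2 * b4
  have d1 : X * d⁄dX ℚ (Gh s g) = X * d⁄dX ℚ (sf g (hS s 1)) -
      X * d⁄dX ℚ (sf g (hS s 0)) * lg g - sf g (hS s 0) * (X * d⁄dX ℚ (lg g)) := by
    unfold Gh
    rw [map_sub, Derivation.leibniz, smul_eq_mul, smul_eq_mul]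
    ring
  have d2 : X * d⁄dX ℚ (Gh1 s g) = X * d⁄dX ℚ (sf g (hS s 3)) -
      X * d⁄dX ℚ (sf g (hS s 2)) * lg g - sf g (hS s 2) * (X * d⁄dX ℚ (lg g)) := by
    unfold Gh1
    rw [map_sub, Derivation.leibniz, smul_eq_mul, smul_eq_mul]
    ring
  refine ⟨?_, ?_, c3, ?_, ?_⟩
  · linear_combination RR s g ^ 2 * a1
  · rw [d1]
    unfold Gh1
    linear_combination RR s g ^ 2 * a2 - RR s g ^ 2 * lg g * a1 -
      RR s g ^ 2 * sf g (hS s 0) * a5
  · rw [d2]
    unfold Gh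
    linear_combination c4 - lg g * c3 - RR s g ^ 2 * sf g (hS s 2) * a5
  · unfold Gh Gh1
    linear_combination b5

/-! ### sizes and denominators -/

theorem hS_sd (s : Bool) (hsd : T_SD) (i : Fin 4) : SDc (hS s i) := by
  obtain ⟨hF, hG⟩ := hsd
  have hF1 : SDc F1 := SDc.X.mul hF.deriv
  have hG1 : SDc G1 := (SDc.X.mul hG.deriv).add hF
  have h : SDc (hJ i) := by
    fin_cases i
    · exact hF
    · exact hG
    · exact hF1
    · exact hG1
  cases s
  · exact Pool.Agent.Y949.J.SDc_rs h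
  · exact h

theorem sde_sf (s : Bool) (hsd : T_SD) (i : Fin 4) : SDE (fun g => sf g (hS s i)) :=
  SDE.subst (hS_sd s hsd i)

theorem sde_Gh (s : Bool) (hsd : T_SD) : SDE (fun g => Gh s g) :=
  (sde_sf s hsd 1).sub ((sde_sf s hsd 0).mul SDE.lg)

theorem sde_Gh1 (s : Bool) (hsd : T_SD) : SDE (fun g => Gh1 s g) :=
  (sde_sf s hsd 3).sub ((sde_sf s hsd 2).mul SDE.lg)

/-! ### the polynomials -/

/-- `a + b x` -/
noncomputable def lin (a b : ℤ) : Polynomial ℤ := Polynomial.C a + Polynomial.C b * Polynomial.X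

theorem ps_lin (a b : ℤ) : ps (lin a b) = (a : ℚ⟦X⟧) + (b : ℚ⟦X⟧) * X := by
  unfold lin
  rw [← Pool.Agent.Y119.HZ.psR_apply]
  simp only [map_add, map_mul, Pool.Agent.Y119.HZ.psR_apply, ps_X', ps_C]

theorem bd_lin (a b : ℤ) {A : ℝ} (ha : |(a : ℝ)| ≤ A) (hb : |(b : ℝ)| ≤ A) : Bd 1 A (lin a b) := by
  have hA : 0 ≤ A := (abs_nonneg _).trans ha
  refine ⟨?_, fun l => ?_⟩
  · unfold lin
    rw [add_comm]
    exact Polynomial.natDegree_linear_le
  · unfold lin
    rw [Polynomial.coeff_add, Polynomial.coeff_C, Polynomial.coeff_C_mul, Polynomial.coeff_X]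
    rcases l with _ | _ | l
    · simpa using ha
    · simpa using hb
    · simpa using hA

theorem aeval_lin (a b : ℤ) (x : ℝ) : Polynomial.aeval x (lin a b) = a + b * x := by
  unfold lin
  simp

/-- `g + 1728 ε` -/
noncomputable def hg (s : Bool) (g : ℕ) : ℤ := (g : ℤ) + 1728 * si s

/-- `(1 - g x) (1 - (g + 1728 ε) x)^2` -/
noncomputable def Tp (s : Bool) (g : ℕ) : Polynomial ℤ :=
  lin 1 (-g) * (lin 1 (-hg s g) * lin 1 (-hg s g))

/-- the matrix of the differential equations -/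
noncomputable def Ap (s : Bool) (g : ℕ) : Fin 2 → Fin 2 → Polynomial ℤ :=
  ![![0, lin 1 (-hg s g) * lin 1 (-hg s g)],
    ![lin 0 1 * lin (-(372 * si s)) (82944 + 372 * si s * g), 0]]

theorem ps_hg (s : Bool) (g : ℕ) : ps (lin 1 (-hg s g)) = RR s g := by
  rw [ps_lin]
  unfold hg
  push_cast
  ring

theorem ps_g (g : ℕ) : ps (lin 1 (-(g : ℤ))) = 1 - (g : ℚ⟦X⟧) * X := by
  rw [ps_lin]
  push_cast
  ring

theorem ps_Tp (s : Bool) (g : ℕ) : ps (Tp s g) = (1 - (g : ℚ⟦X⟧) * X) * RR s g ^ 2 := by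
  unfold Tp
  rw [ps_mul, ps_mul, ps_hg, ps_g]
  ring

theorem ps_QQ (s : Bool) (g : ℕ) :
    ps (lin 0 1 * lin (-(372 * si s)) (82944 + 372 * si s * g)) = QQ s g := by
  rw [ps_mul, ps_lin, ps_lin]
  push_cast
  ring

theorem abs_si (s : Bool) : |((si s : ℤ) : ℝ)| = 1 := by
  cases s <;> simp [si]

theorem big (g E : ℕ) (hE : 18 ≤ E) : 100000 * ((g : ℝ) + 1) ≤ ((g : ℝ) + 2) ^ E := by
  have h0 : (0 : ℝ) ≤ g := Nat.cast_nonneg g
  have h1 : (2 : ℝ) ^ 17 ≤ ((g : ℝ) + 2) ^ 17 := pow_le_pow_left₀ (by norm_num) (by linarith) 17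
  calc 100000 * ((g : ℝ) + 1) ≤ ((g : ℝ) + 2) ^ 17 * ((g : ℝ) + 2) := by
        apply mul_le_mul _ (by linarith) (by positivity) (by positivity)
        refine le_trans ?_ h1
        norm_num
    _ = ((g : ℝ) + 2) ^ 18 := by ring
    _ ≤ _ := base_mono (one_le_base g) hE

theorem bd_g (g : ℕ) : Bd 1 (((g : ℝ) + 2) ^ 18) (lin 1 (-(g : ℤ))) := by
  have h := big g 18 le_rfl
  have h0 : (0 : ℝ) ≤ g := Nat.cast_nonneg g
  apply bd_lin
  · rw [Int.cast_one, abs_one]
    linarith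
  · rw [Int.cast_neg, abs_neg, Int.cast_natCast, abs_of_nonneg h0]
    linarith

theorem bd_h (s : Bool) (g : ℕ) : Bd 1 (((g : ℝ) + 2) ^ 18) (lin 1 (-hg s g)) := by
  have h := big g 18 le_rfl
  have h0 : (0 : ℝ) ≤ g := Nat.cast_nonneg g
  apply bd_lin
  · rw [Int.cast_one, abs_one]
    linarith
  · unfold hg
    rw [Int.cast_neg, abs_neg, Int.cast_add, Int.cast_mul, Int.cast_natCast]
    refine (abs_add_le _ _).trans ?_
    rw [abs_mul, abs_si, abs_of_nonneg h0]
    norm_num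
    linarith

theorem bd_q1 (g : ℕ) : Bd 1 (((g : ℝ) + 2) ^ 18) (lin 0 1) := by
  have h := big g 18 le_rfl
  have h0 : (0 : ℝ) ≤ g := Nat.cast_nonneg g
  apply bd_lin
  · rw [Int.cast_zero, abs_zero]
    linarith
  · rw [Int.cast_one, abs_one]
    linarith

theorem bd_q2 (s : Bool) (g : ℕ) :
    Bd 1 (((g : ℝ) + 2) ^ 18) (lin (-(372 * si s)) (82944 + 372 * si s * g)) := by
  have h := big g 18 le_rfl
  have h0 : (0 : ℝ) ≤ g := Nat.cast_nonneg g
  apply bd_lin
  · rw [Int.cast_neg, abs_neg, Int.cast_mul, abs_mul, abs_si]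
    norm_num
    linarith
  · rw [Int.cast_add, Int.cast_mul, Int.cast_mul, Int.cast_natCast]
    refine (abs_add_le _ _).trans ?_
    rw [abs_mul, abs_mul, abs_si, abs_of_nonneg h0]
    norm_num
    linarith

theorem bd_mul {g n m E F : ℕ} {P Q : Polynomial ℤ} (hn : n ≤ 1)
    (h : Bd n (((g : ℝ) + 2) ^ E) P) (h' : Bd m (((g : ℝ) + 2) ^ F) Q) :
    Bd (n + m) (((g : ℝ) + 2) ^ (E + F + 1)) (P * Q) := by
  refine (h.mul h').mono le_rfl ?_
  have h0 : (0 : ℝ) ≤ g := Nat.cast_nonneg g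
  have h1 : (n : ℝ) + 1 ≤ (g : ℝ) + 2 := by
    have : (n : ℝ) ≤ 1 := by exact_mod_cast hn
    linarith
  rw [pow_add, pow_add, pow_one, mul_comm]
  exact mul_le_mul_of_nonneg_left h1 (by positivity)

theorem X_eq : (Polynomial.X : Polynomial ℤ) = lin 0 1 := by
  unfold lin
  simp

/-- the base family is a G-system, uniformly in the shift -/
theorem t_basej (s : Bool) (hgu : T_GU) (hode : T_ODE) (hsd : T_SD) : T_BASEJ s := by
  obtain ⟨q, E, hq⟩ := hgu 2 4 !![0, 1; 0, 0]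
    (fun g => !![sf g (hS s 0), Gh s g; sf g (hS s 2), Gh1 s g])
    (fun g => !![Gh1 s g, -Gh s g; -sf g (hS s 2), sf g (hS s 0)])
    (Tp s) (Ap s) (by
      rw [pow_two]
      ext i j
      fin_cases i <;> fin_cases j <;> simp [Matrix.mul_apply, Fin.sum_univ_two])
    (fun g => by
      have h := (sh_ode s g hode).2.2.2.2
      ext i j : 1
      fin_cases i <;> fin_cases j
      · simp only [Matrix.mul_apply, Fin.sum_univ_two]
        simp
        linear_combination h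
      · simp only [Matrix.mul_apply, Fin.sum_univ_two]
        simp
        ring
      · simp only [Matrix.mul_apply, Fin.sum_univ_two]
        simp
        ring
      · simp only [Matrix.mul_apply, Fin.sum_univ_two]
        simp
        linear_combination h)
    (fun g i j => by
      obtain ⟨h1, h2, h3, h4, _⟩ := sh_ode s g hode
      rw [ps_Tp]
      fin_cases i <;> fin_cases j
      · simp only [Fin.sum_univ_two, Ap]
        simp [ps_mul, ps_hg, ps_zero]
        linear_combination h1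
      · simp only [Fin.sum_univ_two, Ap]
        simp [ps_mul, ps_hg, ps_zero]
        linear_combination h2
      · simp only [Fin.sum_univ_two, Ap]
        simp [ps_QQ, ps_zero]
        linear_combination h3
      · simp only [Fin.sum_univ_two, Ap]
        simp [ps_QQ, ps_zero]
        linear_combination h4)
    (fun i j => by
      fin_cases i <;> fin_cases j
      · exact sde_sf s hsd 0
      · exact sde_Gh s hsd
      · exact sde_sf s hsd 2
      · exact sde_Gh1 s hsd)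
    (fun i j => by
      fin_cases i <;> fin_cases j
      · exact sde_Gh1 s hsd
      · exact (sde_Gh s hsd).neg
      · exact (sde_sf s hsd 2).neg
      · exact sde_sf s hsd 0)
    ⟨75, fun g => by
      have h1 := bd_mul le_rfl (bd_h s g) (bd_h s g)
      have h2 := bd_mul le_rfl (bd_g g) h1
      have h3 := bd_mul le_rfl (bd_q1 g) h2
      have h4 := bd_mul le_rfl (bd_q1 g) (bd_q2 s g)
      have hb : ∀ a : ℕ, a ≤ 75 → ((g : ℝ) + 2) ^ a ≤ ((g : ℝ) + 2) ^ 75 := fun a ha =>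
        base_mono (one_le_base g) ha
      refine ⟨h2.mono (by norm_num) (hb _ (by norm_num)), ?_, fun i j => ?_⟩
      · rw [X_eq]
        exact h3.mono (by norm_num) (hb _ (by norm_num))
      · have hz : Bd 4 (((g : ℝ) + 2) ^ 75) (0 : Polynomial ℤ) := by
          refine ⟨by simp, fun l => ?_⟩
          simp
          positivity
        fin_cases i <;> fin_cases j
        · exact hz
        · exact h1.mono (by norm_num) (hb _ (by norm_num))
        · exact h4.mono (by norm_num) (hb _ (by norm_num))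
        · exact hz⟩
  -- adjoin the constant one and change the signs
  obtain ⟨E₁, hE₁⟩ := t_fam 5 q
  let e : Fin 5 ≃ Option (Fin 2 × Fin 2) := Equiv.ofBijective
    ![none, some (0, 0), some (1, 0), some (0, 1), some (1, 1)] (by decide)
  let sg : Fin 5 → ℤ := ![1, 1, 1, -1, -1]
  have hsg : ∀ j, sg j * sg j = 1 := by decide
  have hsga : ∀ j, |((sg j : ℤ) : ℝ)| = 1 := by
    intro j
    fin_cases j <;> simp [sg]
  have hfam : ∀ g : ℕ, GSys q (((g : ℝ) + 2) ^ ((E + 1) * E₁)) (Polynomial.X * Tp s g)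
      (baseJ s g) := by
    intro g
    have h1 := (Pool.Agent.Y120.GH.gsys_opt (hq g)).reindex e
    have hone : (1 : ℝ) ≤ ((g : ℝ) + 2) ^ E := one_le_pow₀ (one_le_base g)
    have hy : ∀ j : Fin 5, baseJ s g j = (sg j : ℚ⟦X⟧) * (fun o : Option (Fin 2 × Fin 2) =>
        o.elim (1 : ℚ⟦X⟧) fun p => (!![sf g (hS s 0), Gh s g; sf g (hS s 2), Gh1 s g] :
          Matrix (Fin 2) (Fin 2) ℚ⟦X⟧) p.1 p.2) (e j) := by
      intro j
      fin_cases j
      · show (1 : ℚ⟦X⟧) = ((1 : ℤ) : ℚ⟦X⟧) * 1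
        simp
      · show sf g (hS s 0) = ((1 : ℤ) : ℚ⟦X⟧) * sf g (hS s 0)
        simp
      · show sf g (hS s 2) = ((1 : ℤ) : ℚ⟦X⟧) * sf g (hS s 2)
        simp
      · show -(sf g (hS s 1) - sf g (hS s 0) * lg g) = ((-1 : ℤ) : ℚ⟦X⟧) * Gh s g
        unfold Gh
        push_cast
        ring
      · show -(sf g (hS s 3) - sf g (hS s 2) * lg g) = ((-1 : ℤ) : ℚ⟦X⟧) * Gh1 s g
        unfold Gh1
        push_cast
        ring
    have hbd : ∀ j i : Fin 5, |(((if i = j then sg j else 0 : ℤ) : ℤ) : ℝ)| ≤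
        ((g : ℝ) + 2) ^ E := by
      intro j i
      split_ifs
      · rw [hsga]
        exact hone
      · simp only [Int.cast_zero, abs_zero]
        exact zero_le_one.trans hone
    refine (hE₁ (Fin 5) (Fin 5) _ _ _ (baseJ s g) (fun j i => if i = j then sg j else 0)
      (fun j i => if i = j then sg j else 0) (by simp) (by simp) h1 hbd hbd
      (fun j => ?_) (fun j => ?_)).mono le_rfl (pow_base g E E₁)
    · rw [Finset.sum_eq_single j]
      · rw [if_pos rfl]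
        exact hy j
      · intro i _ hi
        rw [if_neg hi, Int.cast_zero, zero_mul]
      · intro hj
        exact absurd (Finset.mem_univ _) hj
    · rw [Finset.sum_eq_single j]
      · rw [if_pos rfl, hy j, ← mul_assoc, ← Int.cast_mul, hsg j, Int.cast_one, one_mul]
      · intro i _ hi
        rw [if_neg hi, Int.cast_zero, zero_mul]
      · intro hj
        exact absurd (Finset.mem_univ _) hj
  refine ⟨q, (E + 1) * E₁, 1728, fun g => Polynomial.X * Tp s g, hfam, fun g t hgt => ?_⟩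
  have ht0 : (0 : ℝ) < t := by
    have : 0 < t := by omega
    exact_mod_cast this
  have hgt' : (g : ℝ) + 1728 < t := by exact_mod_cast hgt
  have h0 : (0 : ℝ) ≤ g := Nat.cast_nonneg g
  have hlin : ∀ b : ℤ, |(b : ℝ)| < t → Polynomial.aeval (1 / (t : ℝ)) (lin 1 b) ≠ 0 := by
    intro b hb
    rw [aeval_lin]
    have h1 : -(t : ℝ) < b := (abs_lt.1 hb).1
    have h2 : -1 < (b : ℝ) * (1 / (t : ℝ)) := by
      rw [mul_one_div, lt_div_iff₀ ht0]
      linarith
    have h3 : (0 : ℝ) < ((1 : ℤ) : ℝ) + b * (1 / (t : ℝ)) := by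
      rw [Int.cast_one]
      linarith
    exact h3.ne'
  have hh : |((-hg s g : ℤ) : ℝ)| < t := by
    unfold hg
    rw [Int.cast_neg, abs_neg, Int.cast_add, Int.cast_mul, Int.cast_natCast]
    refine lt_of_le_of_lt (abs_add_le _ _) ?_
    rw [abs_mul, abs_si, abs_of_nonneg h0]
    norm_num
    linarith
  unfold Tp
  rw [map_mul, map_mul, map_mul, Polynomial.aeval_X]
  refine mul_ne_zero (by positivity) (mul_ne_zero ?_ (mul_ne_zero (hlin _ hh) (hlin _ hh)))
  apply hlin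
  rw [Int.cast_neg, abs_neg, Int.cast_natCast, abs_of_nonneg h0]
  linarith

end Pool.Agent.Y606.K
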